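import Mathlib
import Pool.Agent.H.MP_3dc43d_an.A

set_option autoImplicit false
open Topology

namespace Pool.Agent.Results.MP_3dc43d_an.Separable

/-- On a separable Banach space, the uniformly recurrent vectors of a uniformly recurrent operator
contain a dense invariant linear subspace. -/
theorem result :
    ∀ (𝕂 : Type) [RCLike 𝕂] (X : Type) [NormedAddCommGroup X] [NormedSpace 𝕂 X]
      [CompleteSpace X] [TopologicalSpace.SeparableSpace X] (T : X →L[𝕂] X),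
      Dense {x : X | ∀ U ∈ 𝓝 x, ∃ N : ℕ, ∀ m : ℕ, ∃ n : ℕ,
          m ≤ n ∧ n ≤ m + N ∧ 1 ≤ n ∧ (T ^ n) x ∈ U} →
      ∃ M : Submodule 𝕂 X, Dense (M : Set X) ∧ (∀ x ∈ M, T x ∈ M) ∧
        ∀ x ∈ M, ∀ U ∈ 𝓝 x, ∃ N : ℕ, ∀ m : ℕ, ∃ n : ℕ,
          m ≤ n ∧ n ≤ m + N ∧ 1 ≤ n ∧ (T ^ n) x ∈ U :=
  fun _ _ _ _ _ _ _ T hT => Pool.Agent.H.MP_3dc43d_an.main T hT

end Pool.Agent.Results.MP_3dc43d_an.Separable
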